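import Mathlib

/-! Multiplicative relations between Weil numbers, part 1: number fields. -/

set_option autoImplicit false

namespace Pool.Agent.Y678.OP

open Module Polynomial NumberField IsDedekindDomain

variable {L : Type} [Field L] [NumberField L]

/-- minus the order at a prime -/
noncomputable def ov (v : HeightOneSpectrum (𝓞 L)) (x : L) : ℤ := WithZero.log (v.valuation L x)

lemma val_ne (v : HeightOneSpectrum (𝓞 L)) {x : L} (hx : x ≠ 0) : v.valuation L x ≠ 0 :=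
  (Valuation.ne_zero_iff _).2 hx

lemma ov_mul (v : HeightOneSpectrum (𝓞 L)) {x y : L} (hx : x ≠ 0) (hy : y ≠ 0) :
    ov v (x * y) = ov v x + ov v y := by
  unfold ov
  rw [map_mul, WithZero.log_mul (val_ne v hx) (val_ne v hy)]

lemma ov_inv (v : HeightOneSpectrum (𝓞 L)) (x : L) : ov v x⁻¹ = -ov v x := by
  unfold ov
  rw [map_inv₀, WithZero.log_inv]

lemma ov_pow (v : HeightOneSpectrum (𝓞 L)) (x : L) (n : ℕ) : ov v (x ^ n) = n * ov v x := by
  unfold ov
  rw [map_pow, WithZero.log_pow, nsmul_eq_mul]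

lemma ov_zpow (v : HeightOneSpectrum (𝓞 L)) (x : L) (n : ℤ) : ov v (x ^ n) = n * ov v x := by
  unfold ov
  rw [map_zpow₀, WithZero.log_zpow, smul_eq_mul]

lemma ov_one (v : HeightOneSpectrum (𝓞 L)) : ov v (1 : L) = 0 := by
  unfold ov
  rw [map_one, WithZero.log_one]

lemma ov_prod (v : HeightOneSpectrum (𝓞 L)) {J : Type} (s : Finset J) (z : J → L)
    (hz : ∀ j, z j ≠ 0) (e : J → ℤ) :
    ov v (∏ j ∈ s, z j ^ e j) = ∑ j ∈ s, e j * ov v (z j) := by
  classical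
  induction s using Finset.induction_on with
  | empty => simpa using ov_one v
  | insert a s ha ih =>
    rw [Finset.prod_insert ha, Finset.sum_insert ha, ov_mul v (zpow_ne_zero _ (hz a))
      (Finset.prod_ne_zero_iff.2 fun j _ => zpow_ne_zero _ (hz j)), ov_zpow, ih]

lemma ov_le_of_int (v : HeightOneSpectrum (𝓞 L)) {x : L} (hx : IsIntegral ℤ x) : ov v x ≤ 0 := by
  obtain ⟨r, rfl⟩ : ∃ r : 𝓞 L, algebraMap (𝓞 L) L r = x := ⟨⟨x, hx⟩, rfl⟩
  have h1 := v.valuation_le_one (K := L) r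
  unfold ov
  rcases eq_or_ne (algebraMap (𝓞 L) L r) 0 with h0 | h0
  · rw [h0, map_zero, WithZero.log_zero]
  · have h2 := (WithZero.log_le_log (val_ne v h0) one_ne_zero).2 h1
    rwa [WithZero.log_one] at h2

lemma int_of_ov {x : L} (hx : x ≠ 0) (h : ∀ v : HeightOneSpectrum (𝓞 L), ov v x ≤ 0) :
    IsIntegral ℤ x := by
  have h1 : ∀ v : HeightOneSpectrum (𝓞 L), v.valuation L x ≤ 1 := by
    intro v
    have h2 := h v
    unfold ov at h2
    rw [← WithZero.log_one, WithZero.log_le_log (val_ne v hx) one_ne_zero] at h2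
    exact h2
  obtain ⟨r, hr⟩ := HeightOneSpectrum.mem_integers_of_valuation_le_one L x h1
  rw [← hr]
  exact RingOfIntegers.isIntegral_coe r

lemma ov_p (v : HeightOneSpectrum (𝓞 L)) {p : ℕ} (hp : p.Prime) :
    -(finrank ℚ L : ℤ) ≤ ov v (p : L) ∧ ov v (p : L) ≤ 0 := by
  have hp0 : (p : L) ≠ 0 := Nat.cast_ne_zero.2 hp.ne_zero
  have hle : ov v (p : L) ≤ 0 := ov_le_of_int v (isIntegral_natCast p)
  refine ⟨?_, hle⟩
  obtain ⟨E, hE⟩ : ∃ E : ℕ, ov v (p : L) = -(E : ℤ) := ⟨(ov v (p : L)).natAbs, by omega⟩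
  rw [hE]
  rcases Nat.eq_zero_or_pos E with h0 | hpos
  · subst h0; simp
  have h1 : v.intValuation ((p : ℕ) : 𝓞 L) ≤ WithZero.exp (-(E : ℤ)) := by
    have h2 : v.valuation L (p : L) = v.intValuation ((p : ℕ) : 𝓞 L) := by
      rw [← v.valuation_of_algebraMap (K := L)]
      simp
    rw [← h2, ← WithZero.log_le_iff_le_exp (val_ne v hp0)]
    exact hE.le
  have h2 : v.asIdeal ^ E ∣ Ideal.span {((p : ℕ) : 𝓞 L)} :=
    (v.intValuation_le_pow_iff_dvd _ _).1 h1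
  have h3 : Ideal.absNorm (Ideal.span {((p : ℕ) : 𝓞 L)}) = p ^ finrank ℚ L := by
    rw [Ideal.absNorm_span_singleton]
    have h4 : Algebra.norm ℤ ((p : ℕ) : 𝓞 L) = (p : ℤ) ^ finrank ℤ (𝓞 L) := by
      have := Algebra.norm_algebraMap (R := ℤ) (S := 𝓞 L) (p : ℤ)
      simpa using this
    rw [h4, Int.natAbs_pow, Int.natAbs_natCast, RingOfIntegers.rank]
  have h4 : (Ideal.absNorm v.asIdeal) ^ E ∣ p ^ finrank ℚ L := by
    rw [← h3, ← map_pow]
    exact map_dvd Ideal.absNorm h2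
  have h5 : Ideal.absNorm v.asIdeal ∣ p ^ finrank ℚ L := (dvd_pow_self _ hpos.ne').trans h4
  obtain ⟨f, hf, hf2⟩ := (Nat.dvd_prime_pow hp).1 h5
  have hf0 : f ≠ 0 := by
    rintro rfl
    rw [pow_zero, Ideal.absNorm_eq_one_iff] at hf2
    exact v.isPrime.ne_top hf2
  rw [hf2, ← pow_mul] at h4
  have h6 := (Nat.pow_dvd_pow_iff_le_right hp.one_lt).1 h4
  have h7 : E ≤ f * E := Nat.le_mul_of_pos_left E (Nat.pos_of_ne_zero hf0)
  have h8 : E ≤ finrank ℚ L := h7.trans h6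
  have : (E : ℤ) ≤ finrank ℚ L := by exact_mod_cast h8
  linarith

/-- bound for the orders of a Weil number -/
lemma ov_bound (v : HeightOneSpectrum (𝓞 L)) {p : ℕ} (hp : p.Prime) {c : ℕ} {w : ℤ} {x : L}
    (hx : x ≠ 0) (h1 : IsIntegral ℤ ((p : L) ^ c * x))
    (h2 : IsIntegral ℤ ((p : L) ^ c * ((p : L) ^ w * x⁻¹))) :
    |ov v x| ≤ (|w| + c) * finrank ℚ L := by
  have hp0 : (p : L) ≠ 0 := Nat.cast_ne_zero.2 hp.ne_zero
  obtain ⟨ha, hb⟩ := ov_p v hp
  have h3 := ov_le_of_int v h1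
  have h4 := ov_le_of_int v h2
  rw [ov_mul v (pow_ne_zero _ hp0) hx, ov_pow] at h3
  rw [ov_mul v (pow_ne_zero _ hp0) (mul_ne_zero (zpow_ne_zero _ hp0) (inv_ne_zero hx)), ov_pow,
    ov_mul v (zpow_ne_zero _ hp0) (inv_ne_zero hx), ov_zpow, ov_inv] at h4
  set P := ov v (p : L)
  set X := ov v x
  set D : ℤ := (finrank ℚ L : ℤ)
  have hc : (0 : ℤ) ≤ c := Int.natCast_nonneg c
  have h5 : (c : ℤ) * (-P) ≤ c * D := mul_le_mul_of_nonneg_left (by linarith) hc
  have h6 : -(w * P) ≤ |w| * D := by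
    have h7 : -(w * P) ≤ |w * P| := neg_le_abs _
    rw [abs_mul, abs_of_nonpos hb] at h7
    exact h7.trans (mul_le_mul_of_nonneg_left (by linarith) (abs_nonneg _))
  have hw : 0 ≤ |w| * D := mul_nonneg (abs_nonneg _) (Int.natCast_nonneg _)
  rw [abs_le]
  constructor <;> nlinarith

/-- a root of unity in a field of degree at most `D` -/
lemma root_order {D : ℕ} (hD : finrank ℚ L ≤ D) {u : L} {m : ℕ} (hm : 0 < m) (hu : u ^ m = 1) :
    u ^ (2 * D).factorial = 1 := by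
  have hfin : IsOfFinOrder u := isOfFinOrder_iff_pow_eq_one.2 ⟨m, hm, hu⟩
  have hk : 0 < orderOf u := hfin.orderOf_pos
  have hprim : IsPrimitiveRoot u (orderOf u) := IsPrimitiveRoot.orderOf u
  have h1 : (orderOf u).totient ≤ D := by
    have h2 := cyclotomic_eq_minpoly_rat hprim hk
    have h3 : (minpoly ℚ u).natDegree = (orderOf u).totient := by
      rw [← h2, natDegree_cyclotomic]
    rw [← h3]
    exact (minpoly.natDegree_le u).trans hD
  rw [← orderOf_dvd_iff_pow_eq_one]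
  refine (Nat.dvd_iff_prime_pow_dvd_dvd _ _).2 fun q k hq hqk => ?_
  rcases Nat.eq_zero_or_pos k with rfl | hkpos
  · simp
  refine Nat.dvd_factorial (pow_pos hq.pos _) ?_
  have h2 : (q ^ k).totient ≤ (orderOf u).totient :=
    Nat.le_of_dvd (Nat.totient_pos.2 hk) (Nat.totient_dvd_of_dvd hqk)
  rw [Nat.totient_prime_pow hq hkpos] at h2
  have h3 : q ^ k = q ^ (k - 1) * q := by rw [← pow_succ]; congr 1; omega
  have h4 : q ≤ 2 * (q - 1) := by have := hq.two_le; omega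
  calc q ^ k = q ^ (k - 1) * q := h3
    _ ≤ q ^ (k - 1) * (2 * (q - 1)) := Nat.mul_le_mul_left _ h4
    _ = 2 * (q ^ (k - 1) * (q - 1)) := by ring
    _ ≤ 2 * D := Nat.mul_le_mul_left _ (h2.trans h1)

lemma prod_zpow {J : Type} {a : ℝ} (ha : a ≠ 0) (s : Finset J) (f : J → ℤ) :
    ∏ j ∈ s, a ^ f j = a ^ ∑ j ∈ s, f j := by
  classical
  induction s using Finset.induction_on with
  | empty => simp
  | insert b s hb ih => rw [Finset.prod_insert hb, Finset.sum_insert hb, zpow_add₀ ha, ih]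

/-- The main fact on multiplicative relations. -/
theorem rel_nf {J : Type} [Fintype J] {D p : ℕ} (hD : finrank ℚ L ≤ D) (hp : p.Prime)
    (w : J → ℤ) (z : J → L) (hz : ∀ j, z j ≠ 0)
    (hn : ∀ j, ∀ φ : L →+* ℂ, ‖φ (z j)‖ ^ 2 = (p : ℝ) ^ w j) (e : J → ℤ)
    (he : ∀ v : HeightOneSpectrum (𝓞 L), ∑ j, e j * ov v (z j) = 0) :
    (∏ j, z j ^ e j) ^ (2 * D).factorial = 1 := by
  set u : L := ∏ j, z j ^ e j with hu
  have hu0 : u ≠ 0 := Finset.prod_ne_zero_iff.2 fun j _ => zpow_ne_zero _ (hz j)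
  have hv : ∀ v : HeightOneSpectrum (𝓞 L), ov v u = 0 := fun v => by
    rw [hu, ov_prod v _ z hz e, he v]
  have hi1 : IsIntegral ℤ u := int_of_ov hu0 fun v => (hv v).le
  have hi2 : IsIntegral ℤ u⁻¹ := int_of_ov (inv_ne_zero hu0) fun v => by
    rw [ov_inv, hv v, neg_zero]
  have hab : ∀ φ : L →+* ℂ, ‖φ u‖ ^ 2 = (p : ℝ) ^ (∑ j, e j * w j) := by
    intro φ
    have hp0 : (p : ℝ) ≠ 0 := Nat.cast_ne_zero.2 hp.ne_zero
    rw [hu, map_prod, norm_prod, ← Finset.prod_pow]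
    have : ∀ j, ‖φ (z j ^ e j)‖ ^ 2 = (p : ℝ) ^ (e j * w j) := by
      intro j
      rw [map_zpow₀, norm_zpow, ← zpow_natCast, ← zpow_mul, mul_comm (e j), zpow_mul,
        zpow_natCast, hn j φ, ← zpow_mul, mul_comm]
    simp_rw [this]
    exact prod_zpow hp0 _ _
  have hp1 : (1 : ℝ) ≤ p := by exact_mod_cast hp.one_lt.le
  rcases le_total (∑ j, e j * w j) 0 with h0 | h0
  · obtain ⟨m, hm, hm1⟩ := NumberField.Embeddings.pow_eq_one_of_norm_le_one L ℂ hu0 hi1
      fun φ => by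
        have h1 : ‖φ u‖ ^ 2 ≤ 1 := by
          rw [hab φ]
          exact zpow_le_one_of_nonpos₀ hp1 h0
        nlinarith [norm_nonneg (φ u)]
    exact root_order hD hm hm1
  · obtain ⟨m, hm, hm1⟩ := NumberField.Embeddings.pow_eq_one_of_norm_le_one L ℂ
      (inv_ne_zero hu0) hi2 fun φ => by
        have h1 : 1 ≤ ‖φ u‖ ^ 2 := by
          rw [hab φ]
          exact one_le_zpow₀ hp1 h0
        have h2 : 1 ≤ ‖φ u‖ := by nlinarith [norm_nonneg (φ u)]
        rw [map_inv₀, norm_inv]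
        exact inv_le_one_of_one_le₀ h2
    have h3 := root_order hD hm hm1
    rw [inv_pow, inv_eq_one] at h3
    exact h3

/-- The converse. -/
theorem rel_of_root {J : Type} [Fintype J] (z : J → L) (hz : ∀ j, z j ≠ 0) (e : J → ℤ) {m : ℕ}
    (hm : 0 < m) (h : (∏ j, z j ^ e j) ^ m = 1) (v : HeightOneSpectrum (𝓞 L)) :
    ∑ j, e j * ov v (z j) = 0 := by
  have h1 := congrArg (ov v) h
  rw [ov_pow, ov_prod v _ z hz e, ov_one] at h1
  rcases mul_eq_zero.1 h1 with h2 | h2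
  · exact absurd (Nat.cast_eq_zero.1 h2) hm.ne'
  · exact h2

end Pool.Agent.Y678.OP
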