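import Pool.Agent.Y114.OP.Stm
import Pool.Agent.Y678.OP.Val

/-! Multiplicative relations between Weil numbers, part 2: uniform bounds. -/

set_option autoImplicit false

namespace Pool.Agent.Y678.OP

open Module Polynomial NumberField IsDedekindDomain Pool.Agent.Y114.OP

/-! ### Degree of the field -/

lemma adj_deg {N S : ℕ} (z : Fin N → ℂ) (h : ∀ j, IsIntegral ℚ (z j))
    (hS : ∀ j, (minpoly ℚ (z j)).natDegree ≤ S) (s : Finset (Fin N)) :
    finrank ℚ (IntermediateField.adjoin ℚ (z '' s)) ≤ S ^ s.card := by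
  classical
  induction s using Finset.induction_on with
  | empty =>
    rw [Finset.coe_empty, Set.image_empty, IntermediateField.adjoin_empty,
      IntermediateField.finrank_bot, Finset.card_empty, pow_zero]
  | insert a s ha ih =>
    rw [Finset.card_insert_of_notMem ha, pow_succ', Finset.coe_insert, Set.image_insert_eq,
      Set.insert_eq, IntermediateField.adjoin_union]
    refine (IntermediateField.finrank_sup_le _ _).trans (Nat.mul_le_mul ?_ ih)
    rw [IntermediateField.adjoin.finrank (h a)]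
    exact hS a

/-! ### Finitely many relation lattices -/

/-- the lattice orthogonal to a finite set of vectors -/
def RX {N : ℕ} (X : Finset (Fin N → ℤ)) : Submodule ℤ (Fin N → ℤ) where
  carrier := {e | ∀ x ∈ X, ∑ j, e j * x j = 0}
  add_mem' := by
    intro a b ha hb x hx
    simp only [Pi.add_apply, add_mul, Finset.sum_add_distrib]
    rw [ha x hx, hb x hx, add_zero]
  zero_mem' := by
    intro x _
    simp
  smul_mem' := by
    intro c a ha x hx
    simp only [Pi.smul_apply, smul_eq_mul, mul_assoc]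
    rw [← Finset.mul_sum, ha x hx, mul_zero]

lemma mem_RX {N : ℕ} (X : Finset (Fin N → ℤ)) (e : Fin N → ℤ) :
    e ∈ RX X ↔ ∀ x ∈ X, ∑ j, e j * x j = 0 := Iff.rfl

lemma exists_gen {N : ℕ} (X : Finset (Fin N → ℤ)) :
    ∃ G : Finset (Fin N → ℤ), Submodule.span ℤ (G : Set (Fin N → ℤ)) = RX X :=
  (IsNoetherian.noetherian (RX X))

lemma exists_bound (N : ℕ) (T : Finset (Fin N → ℤ)) : ∃ B : ℕ, ∀ X ⊆ T,
    ∃ G : Finset (Fin N → ℤ), Submodule.span ℤ (G : Set (Fin N → ℤ)) = RX X ∧
      ∀ g ∈ G, ∀ j, |g j| ≤ B := by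
  classical
  choose G hG using fun X : Finset (Fin N → ℤ) => exists_gen X
  refine ⟨∑ X ∈ T.powerset, ∑ g ∈ G X, ∑ j, (g j).natAbs, fun X hX => ⟨G X, hG X, ?_⟩⟩
  intro g hg j
  have h1 : (g j).natAbs ≤ ∑ j, (g j).natAbs :=
    Finset.single_le_sum (f := fun j => (g j).natAbs) (fun _ _ => Nat.zero_le _)
      (Finset.mem_univ j)
  have h2 : ∑ j, (g j).natAbs ≤ ∑ g ∈ G X, ∑ j, (g j).natAbs :=
    Finset.single_le_sum (f := fun g : Fin N → ℤ => ∑ j, (g j).natAbs)
      (fun _ _ => Nat.zero_le _) hg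
  have h3 : ∑ g ∈ G X, ∑ j, (g j).natAbs ≤ ∑ X ∈ T.powerset, ∑ g ∈ G X, ∑ j, (g j).natAbs :=
    Finset.single_le_sum (f := fun X => ∑ g ∈ G X, ∑ j, (g j).natAbs)
      (fun _ _ => Nat.zero_le _) (Finset.mem_powerset.2 hX)
  rw [Int.abs_eq_natAbs]
  exact_mod_cast h1.trans (h2.trans h3)

/-! ### Relations in a number field -/

section field

variable {L : Type} [Field L] {N : ℕ} (z : Fin N → L)

/-- the monomial with exponents `e` -/
noncomputable def mo (e : Fin N → ℤ) : L := ∏ j, z j ^ e j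

variable {z}

lemma mo_add (hz : ∀ j, z j ≠ 0) (a b : Fin N → ℤ) : mo z (a + b) = mo z a * mo z b := by
  unfold mo
  rw [← Finset.prod_mul_distrib]
  refine Finset.prod_congr rfl fun j _ => ?_
  rw [Pi.add_apply, zpow_add₀ (hz j)]

lemma mo_smul (c : ℤ) (a : Fin N → ℤ) : mo z (c • a) = mo z a ^ c := by
  unfold mo
  rw [← Finset.prod_zpow]
  refine Finset.prod_congr rfl fun j _ => ?_
  rw [Pi.smul_apply, smul_eq_mul, mul_comm, zpow_mul]

lemma mo_zero : mo z 0 = 1 := by
  unfold mo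
  simp

lemma mo_span (hz : ∀ j, z j ≠ 0) (G : Set (Fin N → ℤ)) (h : ∀ g ∈ G, mo z g = 1)
    (e : Fin N → ℤ) (he : e ∈ Submodule.span ℤ G) : mo z e = 1 := by
  induction he using Submodule.span_induction with
  | mem x hx => exact h x hx
  | zero => exact mo_zero
  | add x y _ _ hx hy => rw [mo_add hz, hx, hy, one_mul]
  | smul a x _ hx => rw [mo_smul, hx, one_zpow]

end field

theorem t_REL : S_REL := by
  classical
  intro ι _ n w c N
  -- bounds
  set S : ℕ := ∑ i, n i with hS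
  set D : ℕ := S ^ N with hD
  set W : ℕ := ∑ i, (w i).natAbs with hW
  set C : ℕ := (W + c) * D with hC
  set T : Finset (Fin N → ℤ) := Fintype.piFinset (fun _ : Fin N => Finset.Icc (-(C : ℤ)) C)
    with hT
  obtain ⟨B, hB⟩ := exists_bound N T
  refine ⟨B, (2 * D).factorial, Nat.factorial_pos _, ?_⟩
  intro p hp P hP hroot z hz
  choose k hk using hz
  have hk2 : ∀ j, aeval (z j) (P (k j)) = 0 := fun j => ((mem_aroots.1 (hk j))).2
  have hp0 : (p : ℂ) ≠ 0 := Nat.cast_ne_zero.2 hp.ne_zero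
  have hpR : (0 : ℝ) < p := Nat.cast_pos.2 hp.pos
  have hz0 : ∀ j, z j ≠ 0 := by
    intro j h0
    have h1 := (hroot (k j) (z j) (hk j)).1
    rw [h0, norm_zero] at h1
    have h2 : (0 : ℝ) < (p : ℝ) ^ w (k j) := zpow_pos hpR _
    rw [← h1] at h2
    norm_num at h2
  have hint : ∀ j, IsIntegral ℚ (z j) := fun j =>
    (isAlgebraic_iff_isIntegral).1 ⟨P (k j), (hP (k j)).1, hk2 j⟩
  have hdeg : ∀ j, (minpoly ℚ (z j)).natDegree ≤ S := by
    intro j
    have h1 : (minpoly ℚ (z j)).natDegree ≤ (P (k j)).natDegree :=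
      natDegree_le_of_dvd (minpoly.dvd ℚ (z j) (hk2 j)) (hP (k j)).1
    have h2 : n (k j) ≤ S := Finset.single_le_sum (f := n) (fun _ _ => Nat.zero_le _)
      (Finset.mem_univ _)
    exact h1.trans ((hP (k j)).2.trans h2)
  -- the field
  set L : IntermediateField ℚ ℂ := IntermediateField.adjoin ℚ (Set.range z) with hL
  have hfd : FiniteDimensional ℚ L := by
    refine IntermediateField.finiteDimensional_adjoin ?_
    rintro _ ⟨j, rfl⟩
    exact hint j
  have : NumberField L := { to_charZero := inferInstance, to_finiteDimensional := hfd }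
  have hfin : finrank ℚ L ≤ D := by
    have h1 := adj_deg z hint hdeg Finset.univ
    rw [Finset.coe_univ, Set.image_univ, Finset.card_univ, Fintype.card_fin] at h1
    exact h1
  set y : Fin N → L := fun j => ⟨z j, IntermediateField.subset_adjoin ℚ _ ⟨j, rfl⟩⟩ with hy
  have hyz : ∀ j, ((y j : L) : ℂ) = z j := fun j => rfl
  have hy0 : ∀ j, y j ≠ 0 := fun j h0 => hz0 j (by rw [← hyz j, h0]; rfl)
  have hyP : ∀ j, aeval (y j) (P (k j)) = 0 := by
    intro j
    have h1 : aeval (L.val (y j)) (P (k j)) = L.val (aeval (y j) (P (k j))) :=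
      aeval_algHom_apply L.val (y j) (P (k j))
    have h2 : L.val (aeval (y j) (P (k j))) = 0 := by
      rw [← h1]
      exact hk2 j
    exact (map_eq_zero_iff L.val L.val.injective).1 h2
  have hn : ∀ j, ∀ φ : L →+* ℂ, ‖φ (y j)‖ ^ 2 = (p : ℝ) ^ w (k j) := by
    intro j φ
    refine (hroot (k j) (φ (y j)) (mem_aroots.2 ⟨(hP (k j)).1, ?_⟩)).1
    have h1 := aeval_algHom_apply φ.toRatAlgHom (y j) (P (k j))
    rw [hyP j, map_zero] at h1
    exact h1
  have hcoe : ∀ x : L, algebraMap L ℂ x = (x : ℂ) := fun x => rfl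
  have hi1 : ∀ j, IsIntegral ℤ ((p : L) ^ c * y j) := by
    intro j
    refine (isIntegral_algebraMap_iff (FaithfulSMul.algebraMap_injective L ℂ)).1 ?_
    rw [map_mul, map_pow, map_natCast, hcoe, hyz]
    exact (hroot (k j) (z j) (hk j)).2
  have hi2 : ∀ j, IsIntegral ℤ ((p : L) ^ c * ((p : L) ^ w (k j) * (y j)⁻¹)) := by
    intro j
    refine (isIntegral_algebraMap_iff (FaithfulSMul.algebraMap_injective L ℂ)).1 ?_
    rw [map_mul, map_pow, map_mul, map_zpow₀, map_inv₀, map_natCast, hcoe, hyz]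
    have h1 : (p : ℂ) ^ w (k j) * (z j)⁻¹ = starRingEnd ℂ (z j) := by
      have h2 := Complex.mul_conj' (z j)
      have h3 : ((‖z j‖ : ℂ)) ^ 2 = (p : ℂ) ^ w (k j) := by
        have h4 := (hroot (k j) (z j) (hk j)).1
        have h5 := congrArg (fun t : ℝ => (t : ℂ)) h4
        simpa using h5
      rw [h3] at h2
      rw [← h2, mul_comm (z j), mul_assoc, mul_inv_cancel₀ (hz0 j), mul_one]
    rw [h1]
    refine (hroot (k j) (starRingEnd ℂ (z j)) (mem_aroots.2 ⟨(hP (k j)).1, ?_⟩)).2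
    have h2 := aeval_algHom_apply (starRingEnd ℂ).toRatAlgHom (z j) (P (k j))
    rw [hk2 j, map_zero] at h2
    exact h2
  -- the set of the vectors of orders
  have hbox : ∀ v : HeightOneSpectrum (𝓞 L), (fun j => ov v (y j)) ∈ T := by
    intro v
    rw [hT, Fintype.mem_piFinset]
    intro j
    rw [Finset.mem_Icc, ← abs_le]
    refine (ov_bound v hp (hy0 j) (hi1 j) (hi2 j)).trans ?_
    have h1 : |w (k j)| ≤ (W : ℤ) := by
      rw [Int.abs_eq_natAbs]
      have : (w (k j)).natAbs ≤ W := Finset.single_le_sum (f := fun i => (w i).natAbs)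
        (fun _ _ => Nat.zero_le _) (Finset.mem_univ _)
      exact_mod_cast this
    have h2 : (finrank ℚ L : ℤ) ≤ D := by exact_mod_cast hfin
    rw [hC]
    push_cast
    exact mul_le_mul (add_le_add h1 le_rfl) h2 (Int.natCast_nonneg _) (by positivity)
  set X : Finset (Fin N → ℤ) := T.filter fun x => ∃ v : HeightOneSpectrum (𝓞 L),
    x = fun j => ov v (y j) with hX
  have hmem : ∀ e : Fin N → ℤ, e ∈ RX X ↔
      ∀ v : HeightOneSpectrum (𝓞 L), ∑ j, e j * ov v (y j) = 0 := by
    intro e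
    rw [mem_RX]
    constructor
    · intro h v
      exact h (fun j => ov v (y j)) (Finset.mem_filter.2 ⟨hbox v, v, rfl⟩)
    · intro h x hx
      obtain ⟨-, v, rfl⟩ := Finset.mem_filter.1 hx
      exact h v
  obtain ⟨G, hG, hGB⟩ := hB X (Finset.filter_subset _ _)
  have hval : ∀ e : Fin N → ℤ, ((mo y e : L) : ℂ) = ∏ j, z j ^ e j := by
    intro e
    have h1 : ((mo y e : L) : ℂ) = algebraMap L ℂ (mo y e) := rfl
    rw [h1]
    unfold mo
    rw [map_prod]
    refine Finset.prod_congr rfl fun j _ => ?_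
    rw [map_zpow₀, hcoe, hyz]
  have hinj : ∀ a b : L, (a : ℂ) = b → a = b := fun a b h => Subtype.ext h
  have hM : ∀ e ∈ RX X, (mo y e) ^ (2 * D).factorial = 1 := by
    intro e he
    exact rel_nf hfin hp (fun j => w (k j)) y hy0 hn e ((hmem e).1 he)
  have hM' : ∀ e ∈ RX X, (∏ j, z j ^ e j) ^ (2 * D).factorial = 1 := by
    intro e he
    rw [← hval e]
    have := congrArg (fun t : L => (t : ℂ)) (hM e he)
    simpa using this
  have hroot' : ∀ (e : Fin N → ℤ) (m : ℕ), 0 < m → (∏ j, z j ^ e j) ^ m = 1 → e ∈ RX X := by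
    intro e m hm h
    rw [hmem]
    intro v
    refine rel_of_root y hy0 e hm ?_ v
    apply hinj
    have h1 : (((mo y e) ^ m : L) : ℂ) = (∏ j, z j ^ e j) ^ m := by
      rw [← hval e]; simp
    exact h1.trans (h.trans (by simp))
  have hGR : ∀ g ∈ G, g ∈ RX X := fun g hg => by
    rw [← hG]
    exact Submodule.subset_span hg
  refine ⟨?_, ?_⟩
  · rintro ⟨e, he0, he⟩
    have h1 : e ∈ RX X := hroot' e 1 one_pos (by rw [he, one_pow])
    obtain ⟨g, hg, hg0⟩ : ∃ g ∈ G, g ≠ 0 := by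
      by_contra hcon
      push Not at hcon
      rw [← hG] at h1
      have h2 : Submodule.span ℤ (G : Set (Fin N → ℤ)) = ⊥ :=
        Submodule.span_eq_bot.2 fun g hg => hcon g hg
      rw [h2] at h1
      exact he0 ((Submodule.mem_bot ℤ).1 h1)
    exact ⟨g, hg0, fun j => hGB g hg j, hM' g (hGR g hg)⟩
  · rintro ⟨e, m, hm, he, hne⟩
    have h1 : e ∈ RX X := hroot' e m hm he
    obtain ⟨g, hg, hg1⟩ : ∃ g ∈ G, mo y g ≠ 1 := by
      by_contra hcon
      push Not at hcon
      rw [← hG] at h1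
      have h2 := mo_span hy0 (G : Set (Fin N → ℤ)) hcon e h1
      apply hne
      rw [← hval e, h2]
      simp
    refine ⟨g, fun j => hGB g hg j, hM' g (hGR g hg), ?_⟩
    intro h2
    apply hg1
    apply hinj
    rw [hval g, h2]
    simp

end Pool.Agent.Y678.OP
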